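import Pool.Agent.N795.BV.Core
import Pool.Agent.N340.BVPHIA
import Pool.Agent.N570.BVPHIB
import Pool.Agent.N335.BVPHI
import Pool.Agent.N933.BVLOC
import Pool.Agent.N826.BVSUMW
import Pool.Agent.N8.BVGL
import Pool.Agent.N18.BVSEN
import Pool.Agent.N68.BVCMP
import Pool.Agent.N916.BVNRM

/-!
# Borcea's `p`-variance inequality and its equality cases: all large `p`, uniformly in the degree

For every degree `n ≥ 2` there is `p₀` such that for all `p ≥ p₀` and ALL polynomials `F` of degree
`n`: `h(F, F') ≤ σ_p(F)`, with equality if and only if `F = a (z - c)^n - b`.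

Proof. (1) Local theorem: if the critical points are small, the centroid is `0` and the mean of
`|z_k|²` is at most `1`, then each zero has a critical point at distance less than `1`, unless
`F = z^n - b`. (2) Compactness and the case of equality in Sendov's theorem (starting file
`MP_f0bc87_an.AllNegativeExponents`): a violation with a large `p` has, after normalisation, small
critical points. (3) The power mean inequality.
-/

set_option autoImplicit false

open Polynomial

namespace Pool.Agent.Results.MP_c113aa_an.LargeExponentsAllPolynomials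

/-- `h(F, F')`: the largest distance from a zero of `F` to the nearest critical point. -/
noncomputable def h (F : ℂ[X]) : ℝ :=
  sSup {d : ℝ | ∃ z ∈ F.roots, d = sInf {r : ℝ | ∃ w ∈ (derivative F).roots, r = ‖z - w‖}}

/-- The `p`-variance `σ_p(F)` of the zeros of `F`, listed with multiplicity. -/
noncomputable def sigma (p : ℝ) (F : ℂ[X]) : ℝ :=
  ⨅ c : ℂ, ((1 / (F.natDegree : ℝ)) * (F.roots.map (fun z => ‖z - c‖ ^ p)).sum) ^ (1 / p)

/-- **Theorem.** For every degree `n ≥ 2` there is `p₀ > 1` such that for all `p ≥ p₀` and all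
polynomials `F` of degree `n` one has `h(F, F') ≤ σ_p(F)`, with equality if and only if
`F = a (z - c)^n - b` with `a ≠ 0`. -/
theorem result (n : ℕ) (hn : 2 ≤ n) : ∃ p₀ : ℝ, 1 < p₀ ∧ ∀ p : ℝ, p₀ ≤ p →
    ∀ F : ℂ[X], F.natDegree = n →
      h F ≤ sigma p F ∧
        (h F = sigma p F ↔ ∃ a b c : ℂ, a ≠ 0 ∧ F = C a * (X - C c) ^ n - C b) := by
  obtain ⟨p₀, hp₀, H⟩ := Pool.Agent.N795.BV.main Pool.Agent.N795.BV.sumw
    (Pool.Agent.N795.BV.loc (Pool.Agent.N795.BV.phi Pool.Agent.N795.BV.phia
      Pool.Agent.N795.BV.phib) Pool.Agent.N795.BV.sumw)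
    (Pool.Agent.N795.BV.cmp Pool.Agent.N795.BV.gl
      (Pool.Agent.N795.BV.sen Pool.Agent.N795.BV.sumw))
    (Pool.Agent.N795.BV.nrm Pool.Agent.N795.BV.gl) n hn
  refine ⟨p₀, hp₀, fun p hp F hF => ?_⟩
  obtain ⟨h1, h2⟩ := H F hF p hp
  refine ⟨h1, ?_⟩
  have h3 : Pool.Agent.V1148.Bor.IsPure F ↔
      ∃ a b c : ℂ, a ≠ 0 ∧ F = C a * (X - C c) ^ n - C b := by
    unfold Pool.Agent.V1148.Bor.IsPure
    rw [hF]
  exact h2.trans h3

end Pool.Agent.Results.MP_c113aa_an.LargeExponentsAllPolynomials
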