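import Pool.Agent.N795.CZ.Main

/-!
# Borcea's `p`-variance inequality and its equality cases: symmetric zeros on rays

Let `m ≥ 2` and `F(z) = a ∏ i, ((z - c)^m - t_i v)` with `t_i ≥ 0`: the zeros lie on `m` equally
spaced rays from `c` and are invariant under the rotation by `2 π / m` about `c`. Then
`h(F, F') ≤ σ_p(F)` for all `p ≥ 1`, and for all `p > 1` equality holds if and only if
`F = a' (z - c')^n - b'`. The family contains all polynomials `a (z - c)^n - b`, `n ≥ 2`.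

Proof. `σ_1(F)` is the mean of `|z_k - c|` by symmetry. The centre `c` is a critical point, so only
the zeros which are not the nearest ones to `c` matter. For these the critical point of
`∏ (t - t_i)` next to `t_k` on the left is bounded from below by the Cauchy-Schwarz inequality, and
the convexity of `x ^ m` shows that the corresponding critical point of `F` has distance at most
the mean of `|z_k - c|`.
-/

set_option autoImplicit false

open Polynomial

namespace Pool.Agent.Results.MP_c113aa_an.ZerosOnRays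

/-- `h(F, F')`: the largest distance from a zero of `F` to the nearest critical point. -/
noncomputable def h (F : ℂ[X]) : ℝ :=
  sSup {d : ℝ | ∃ z ∈ F.roots, d = sInf {r : ℝ | ∃ w ∈ (derivative F).roots, r = ‖z - w‖}}

/-- The `p`-variance `σ_p(F)` of the zeros of `F`, listed with multiplicity. -/
noncomputable def sigma (p : ℝ) (F : ℂ[X]) : ℝ :=
  ⨅ c : ℂ, ((1 / (F.natDegree : ℝ)) * (F.roots.map (fun z => ‖z - c‖ ^ p)).sum) ^ (1 / p)

/-- polar coordinates -/
theorem polar {l m : ℕ} (hm : 2 ≤ m) (v : ℂ) (t : Fin l → ℝ) (ht : ∀ i, 0 ≤ t i) :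
    ∃ (α : ℂ) (R : Fin l → ℝ), ‖α‖ = 1 ∧ (∀ i, 0 ≤ R i) ∧
      ∀ i, (t i : ℂ) * v = (α * R i) ^ m := by
  have hm0 : m ≠ 0 := by omega
  obtain ⟨β, hβ⟩ := IsAlgClosed.exists_pow_nat_eq v (Nat.pos_of_ne_zero hm0)
  by_cases hβ0 : β = 0
  · refine ⟨1, fun _ => 0, norm_one, fun _ => le_rfl, fun i => ?_⟩
    rw [← hβ, hβ0, zero_pow hm0, mul_zero, Complex.ofReal_zero, mul_zero, zero_pow hm0]
  · have hn : ‖β‖ ≠ 0 := norm_ne_zero_iff.2 hβ0
    have hnC : (‖β‖ : ℂ) ≠ 0 := by exact_mod_cast hn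
    refine ⟨β / ‖β‖, fun i => t i ^ ((m : ℝ)⁻¹) * ‖β‖, ?_, fun i => ?_, fun i => ?_⟩
    · rw [norm_div, Complex.norm_real, norm_norm, div_self hn]
    · have := ht i
      positivity
    · have e : β / (‖β‖ : ℂ) * ((t i ^ ((m : ℝ)⁻¹) * ‖β‖ : ℝ) : ℂ) =
          β * ((t i ^ ((m : ℝ)⁻¹) : ℝ) : ℂ) := by
        push_cast
        field_simp
      rw [e, mul_pow, hβ, ← Complex.ofReal_pow, Real.rpow_inv_natCast_pow (ht i) hm0]
      ring

/-- **Theorem.** Let `m ≥ 2`, `l ≥ 1` and `F(z) = a ∏ i, ((z - c)^m - t_i v)` with `a ≠ 0`, `c` and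
`v` complex numbers and `t_i ≥ 0`. Then `h(F, F') ≤ σ_p(F)` for all `p ≥ 1`, and for all `p > 1`
equality holds if and only if `F = a' (z - c')^n - b'` with `a' ≠ 0`, `n` the degree of `F`. -/
theorem result (l m : ℕ) (hl : 1 ≤ l) (hm : 2 ≤ m) (a c v : ℂ) (ha : a ≠ 0) (t : Fin l → ℝ)
    (ht : ∀ i, 0 ≤ t i) (F : ℂ[X])
    (hF : F = C a * ∏ i, ((X - C c) ^ m - C ((t i : ℂ) * v))) :
    (∀ p : ℝ, 1 ≤ p → h F ≤ sigma p F) ∧
      ∀ p : ℝ, 1 < p → (h F = sigma p F ↔
        ∃ a' b' c' : ℂ, a' ≠ 0 ∧ F = C a' * (X - C c') ^ F.natDegree - C b') := by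
  obtain ⟨α, R, hα, hR, hv⟩ := polar hm v t ht
  have hF' : F = Pool.Agent.N795.CZ.PF m a c α R := by
    rw [hF, Pool.Agent.N795.CZ.PF]
    simp only [hv]
  obtain ⟨h1, h2⟩ := Pool.Agent.N795.CZ.main hl hm (c := c) ha hα R hR
  rw [← hF'] at h1 h2
  exact ⟨h1, h2⟩

end Pool.Agent.Results.MP_c113aa_an.ZerosOnRays
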